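import Pool.Agent.WAP.Defs
import Pool.Agent.Helper32_WAP.Add

/-!
# WAP, part T (helper32): points near the origin
-/

namespace Pool.Agent.WAP.H32

open WeierstrassCurve WeierstrassCurve.Affine

/-- relation between `z = X / Y` and `u = 1 / X` -/
theorem zu_rel {F : Type} [Field F] {d : F} {p : (W d).Point} (hY : cY p ≠ 0) :
    (cX p)⁻¹ = cz p ^ 2 * (1 - d ^ 2 * ((cX p)⁻¹) ^ 2) := by
  have e := eqn (P := p)
  have hX : cX p ≠ 0 := by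
    intro h
    rw [h] at e
    apply hY
    apply pow_eq_zero_iff (two_ne_zero) |>.mp
    rw [e]; ring
  unfold cz
  rw [div_pow, e]
  have h3 : cX p ^ 3 - d ^ 2 * cX p ≠ 0 := by
    rw [← e]; exact pow_ne_zero 2 hY
  have h4 : cX p ^ 2 - d ^ 2 ≠ 0 := by
    intro h
    apply h3
    linear_combination cX p * h
  field_simp

/-- Points near the origin: coordinates `1 / X`, `X / Y`, `Y / X ^ 2` are small. -/
theorem near {F : Type} [NormedField F] {d : F} (hd : d ≠ 0) {δ : ℝ} (hδ : 0 < δ) :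
    ∃ N : ℝ, 0 < N ∧ ∀ p : (W d).Point, Big N p → p = 0 ∨ (cX p ≠ 0 ∧ cY p ≠ 0 ∧
      ‖(cX p)⁻¹‖ < δ ∧ ‖cz p‖ < δ ∧ ‖cY p / cX p ^ 2‖ < δ) := by
  have hd0 : 0 < ‖d‖ := norm_pos_iff.mpr hd
  set η : ℝ := min δ (δ ^ 2 / 2) with hη
  have hη0 : 0 < η := lt_min hδ (by positivity)
  refine ⟨2 + 1 / (η * ‖d‖), by positivity, ?_⟩
  intro p hp
  rcases hp with hp | hp
  · exact Or.inl hp
  right
  have hq : 0 < 1 / (η * ‖d‖) := by positivity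
  rw [norm_div, lt_div_iff₀ hd0] at hp
  have hX0 : 0 < ‖cX p‖ := lt_trans (by positivity) hp
  have hX : cX p ≠ 0 := norm_pos_iff.mp hX0
  have hXd : 2 * ‖d‖ < ‖cX p‖ := by
    refine lt_trans ?_ hp
    have : 0 < 1 / (η * ‖d‖) * ‖d‖ := by positivity
    linarith [this, add_mul 2 (1 / (η * ‖d‖)) ‖d‖]
  have hXe : 1 / η < ‖cX p‖ := by
    refine lt_trans ?_ hp
    have h1 : 1 / (η * ‖d‖) * ‖d‖ = 1 / η := by field_simp
    have h2 : 0 < 2 * ‖d‖ := by positivity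
    linarith [h1, add_mul 2 (1 / (η * ‖d‖)) ‖d‖]
  set u := (cX p)⁻¹ with hu
  have hun : ‖u‖ < η := by
    rw [hu, norm_inv]
    rw [inv_lt_comm₀ hX0 hη0]
    rwa [one_div] at hXe
  have hdu : ‖d ^ 2 * u ^ 2‖ ≤ 1 / 4 := by
    have h1 : ‖d‖ * ‖u‖ ≤ 1 / 2 := by
      rw [hu, norm_inv]
      rw [← div_eq_mul_inv, div_le_iff₀ hX0]
      linarith
    have h2 : ‖d ^ 2 * u ^ 2‖ = (‖d‖ * ‖u‖) ^ 2 := by
      rw [norm_mul, norm_pow, norm_pow]; ring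
    rw [h2]
    have h3 : 0 ≤ ‖d‖ * ‖u‖ := by positivity
    nlinarith
  have hlo : 3 / 4 ≤ ‖1 - d ^ 2 * u ^ 2‖ := by
    have := norm_sub_norm_le (1 : F) (d ^ 2 * u ^ 2)
    rw [norm_one] at this
    linarith
  have hhi : ‖1 - d ^ 2 * u ^ 2‖ ≤ 5 / 4 := by
    have := norm_sub_le (1 : F) (d ^ 2 * u ^ 2)
    rw [norm_one] at this
    linarith
  have hne : 1 - d ^ 2 * u ^ 2 ≠ 0 := by
    intro h
    rw [h, norm_zero] at hlo
    linarith
  have e := eqn (P := p)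
  have hY2 : cY p ^ 2 = cX p ^ 3 * (1 - d ^ 2 * u ^ 2) := by
    rw [e, hu]
    field_simp
  have hY : cY p ≠ 0 := by
    intro h
    rw [h] at hY2
    have : cX p ^ 3 * (1 - d ^ 2 * u ^ 2) ≠ 0 := mul_ne_zero (pow_ne_zero 3 hX) hne
    exact this (by rw [← hY2]; ring)
  refine ⟨hX, hY, lt_of_lt_of_le hun (min_le_left _ _), ?_, ?_⟩
  · have h1 := zu_rel hY
    rw [← hu] at h1
    have h2 : ‖u‖ = ‖cz p‖ ^ 2 * ‖1 - d ^ 2 * u ^ 2‖ := by
      nth_rewrite 1 [h1]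
      rw [norm_mul, norm_pow]
    have h3 : ‖cz p‖ ^ 2 < δ ^ 2 := by
      have h4 : ‖u‖ < δ ^ 2 / 2 := lt_of_lt_of_le hun (min_le_right _ _)
      nlinarith [sq_nonneg ‖cz p‖]
    exact lt_of_pow_lt_pow_left₀ 2 hδ.le h3
  · have h2 : (cY p / cX p ^ 2) ^ 2 = u * (1 - d ^ 2 * u ^ 2) := by
      rw [div_pow, hY2, hu]
      field_simp
    have h3 : ‖cY p / cX p ^ 2‖ ^ 2 < δ ^ 2 := by
      rw [← norm_pow, h2, norm_mul]
      have h4 : ‖u‖ < δ ^ 2 / 2 := lt_of_lt_of_le hun (min_le_right _ _)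
      nlinarith [norm_nonneg u]
    exact lt_of_pow_lt_pow_left₀ 2 hδ.le h3

end Pool.Agent.WAP.H32
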