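import Pool.Agent.WAP.StmtsT
import Pool.Agent.WAP.Alg
import Pool.Agent.Helper32_WAP.Near

/-!
# WAP row CNA (helper32, backup): letters `act` are continuous
-/

namespace Pool.Agent.WAP.H32

open Classical

theorem cna (gdf : GdfStmt) (fra : FraStmt) (fre : FreStmt) (kuc : KucStmt) (loc : LocStmt)
    (adn : AdnStmt) (smn : SmnStmt) : CnaStmt := by
  intro F _ _ hLC a b c e z z' hst V hV hz'
  have hG := gdf F hLC
  have h2 : (2 : F) ≠ 0 := by
    have h1 := hG.1 2 (by decide)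
    rwa [map_ofNat] at h1
  obtain ⟨hz, hzU', hdet, hact⟩ := hst
  obtain ⟨hd, hk, -, -⟩ := fre F h2 z hz
  set d := cub z.1 with hdd
  set P0 := frP z with hP0
  set Q0 := frQ z with hQ0
  have hU : OnU (kum d P0 Q0) := by rw [hk]; exact hz
  have hf := fra F h2 d P0 Q0 a b c e hd hU
  rw [hk] at hf
  have hz1 : z' = kum d (sm a P0 + sm b Q0) (sm c P0 + sm e Q0) := by
    rw [← hf]; exact hact
  obtain ⟨N1, hN1⟩ := kuc F hG d hd (sm a P0 + sm b Q0) (sm c P0 + sm e Q0)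
    (by rw [← hz1]; exact hzU') V hV (by rw [← hz1]; exact hz')
  obtain ⟨N2, hN2⟩ := adn F hG d hd N1
  obtain ⟨Na, hNa⟩ := smn F hG d hd a N2
  obtain ⟨Nb, hNb⟩ := smn F hG d hd b N2
  obtain ⟨Nc, hNc⟩ := smn F hG d hd c N2
  obtain ⟨Ne, hNe⟩ := smn F hG d hd e N2
  obtain ⟨O, hO, hzO, hOl⟩ := loc F hG d hd P0 Q0 hU (max (max Na Nb) (max Nc Ne))
  have mono : ∀ {M M' : ℝ} {p : Pt d}, M ≤ M' → Big M' p → Big M p := by
    intro M M' p hM hp
    rcases hp with hp | hp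
    · exact Or.inl hp
    · exact Or.inr (lt_of_le_of_lt hM hp)
  rw [hk] at hzO
  refine ⟨O, hO, hzO, ?_⟩
  intro z1 hz1O hz1U
  obtain ⟨p, q, hp, hq, hz1e⟩ := hOl z1 hz1O hz1U
  have hm := le_max_left (max Na Nb) (max Nc Ne)
  have hm' := le_max_right (max Na Nb) (max Nc Ne)
  have hpa := hNa p (mono (le_trans (le_max_left _ _) hm) hp)
  have hqb := hNb q (mono (le_trans (le_max_right _ _) hm) hq)
  have hpc := hNc p (mono (le_trans (le_max_left _ _) hm') hp)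
  have hqe := hNe q (mono (le_trans (le_max_right _ _) hm') hq)
  have h3 := hN1 (sm a p + sm b q) (sm c p + sm e q) (hN2 _ _ hpa hqb) (hN2 _ _ hpc hqe)
  have hf1 := fra F h2 d (P0 + p) (Q0 + q) a b c e hd (by rw [← hz1e]; exact hz1U)
  rw [← hz1e] at hf1
  have e1 : sm a (P0 + p) + sm b (Q0 + q) = sm a P0 + sm b Q0 + (sm a p + sm b q) := by
    have h4 : sm a (P0 + p) = sm a P0 + sm a p := gsm_add _ a P0 p
    have h5 : sm b (Q0 + q) = sm b Q0 + sm b q := gsm_add _ b Q0 q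
    rw [h4, h5]
    abel
  have e2 : sm c (P0 + p) + sm e (Q0 + q) = sm c P0 + sm e Q0 + (sm c p + sm e q) := by
    have h4 : sm c (P0 + p) = sm c P0 + sm c p := gsm_add _ c P0 p
    have h5 : sm e (Q0 + q) = sm e Q0 + sm e q := gsm_add _ e Q0 q
    rw [h4, h5]
    abel
  rw [e1, e2] at hf1
  refine ⟨actf a b c e z1, ?_, ?_⟩
  · rw [hf1]; exact h3.1
  · refine ⟨hz1U, ?_, hdet, rfl⟩
    rw [hf1]; exact h3.2

end Pool.Agent.WAP.H32
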