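import Pool.Agent.Helper32_WAP.Near

/-!
# WAP, part T (helper32): the closed formula for `cz (p + q)`
-/

namespace Pool.Agent.WAP.H32

open WeierstrassCurve WeierstrassCurve.Affine

section alg

variable {F : Type} [Field F]

/-- `ρ` is the symmetric difference quotient: `ρ (z1 - z2) = u1 - u2`. -/
theorem rho_diff {d z1 u1 z2 u2 ρ : F} (R1 : u1 = z1 ^ 2 * (1 - d ^ 2 * u1 ^ 2))
    (R2 : u2 = z2 ^ 2 * (1 - d ^ 2 * u2 ^ 2)) (h : 1 + d ^ 2 * u1 * u2 ≠ 0)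
    (R5 : ρ * (1 + d ^ 2 * u1 * u2) = (z1 + z2) * (1 - d ^ 2 * u1 ^ 2) * (1 - d ^ 2 * u2 ^ 2)) :
    ρ * (z1 - z2) = u1 - u2 := by
  apply mul_right_cancel₀ h
  linear_combination (z1 - z2) * R5 + (-(1 - d ^ 2 * u2 ^ 2)) * R1 + (1 - d ^ 2 * u1 ^ 2) * R2

theorem alg1 {d z1 u1 z2 u2 ρ : F} (R1 : u1 = z1 ^ 2 * (1 - d ^ 2 * u1 ^ 2))
    (R2 : u2 = z2 ^ 2 * (1 - d ^ 2 * u2 ^ 2))
    (R5 : ρ * (1 + d ^ 2 * u1 * u2) = (z1 + z2) * (1 - d ^ 2 * u1 ^ 2) * (1 - d ^ 2 * u2 ^ 2)) :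
    (z1 * u1 + z2 * u2 + z1 * z2 * ρ) * (1 + d ^ 2 * u1 * u2) = (u1 + u2) * (z1 + z2) := by
  linear_combination (z1 * z2) * R5 - (z2 * (1 - d ^ 2 * u2 ^ 2)) * R1
    - (z1 * (1 - d ^ 2 * u1 ^ 2)) * R2

theorem alg2 {d z1 u1 z2 u2 ρ : F} (R1 : u1 = z1 ^ 2 * (1 - d ^ 2 * u1 ^ 2))
    (R2 : u2 = z2 ^ 2 * (1 - d ^ 2 * u2 ^ 2))
    (R5 : ρ * (1 + d ^ 2 * u1 * u2) = (z1 + z2) * (1 - d ^ 2 * u1 ^ 2) * (1 - d ^ 2 * u2 ^ 2)) :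
    (z1 * z2 * ρ) ^ 2 * (1 + d ^ 2 * u1 * u2) = u1 * u2 * (z1 + z2) * ρ := by
  linear_combination (z1 ^ 2 * z2 ^ 2 * ρ) * R5
    - (ρ * (z1 + z2) * (z2 ^ 2 * (1 - d ^ 2 * u2 ^ 2))) * R1 - (ρ * (z1 + z2) * u1) * R2

/-- `X3` identity -/
theorem alg3 {d z1 u1 z2 u2 ρ κ : F} (R1 : u1 = z1 ^ 2 * (1 - d ^ 2 * u1 ^ 2))
    (R2 : u2 = z2 ^ 2 * (1 - d ^ 2 * u2 ^ 2)) (h : 1 + d ^ 2 * u1 * u2 ≠ 0)
    (R5 : ρ * (1 + d ^ 2 * u1 * u2) = (z1 + z2) * (1 - d ^ 2 * u1 ^ 2) * (1 - d ^ 2 * u2 ^ 2))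
    (K : κ = u1 + z2 * ρ) :
    (u1 + u2) * (z1 * z2 * ρ) ^ 2 = u1 * u2 * (κ ^ 2 - u1 * u2) := by
  have h1 := alg1 R1 R2 R5
  have h2 := alg2 R1 R2 R5
  have h3 := rho_diff R1 R2 h R5
  have h4 : κ ^ 2 - u1 * u2 = ρ * (z1 * u1 + z2 * u2 + z1 * z2 * ρ) := by
    rw [K]
    linear_combination (-(u1 + z2 * ρ)) * h3
  apply mul_right_cancel₀ h
  rw [h4]
  linear_combination (u1 + u2) * h2 - (u1 * u2 * ρ) * h1

/-- `Y3` identity -/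
theorem alg4 {d z1 u1 z2 u2 ρ κ : F} (R1 : u1 = z1 ^ 2 * (1 - d ^ 2 * u1 ^ 2))
    (R2 : u2 = z2 ^ 2 * (1 - d ^ 2 * u2 ^ 2)) (h : 1 + d ^ 2 * u1 * u2 ≠ 0)
    (R5 : ρ * (1 + d ^ 2 * u1 * u2) = (z1 + z2) * (1 - d ^ 2 * u1 ^ 2) * (1 - d ^ 2 * u2 ^ 2))
    (K : κ = u1 + z2 * ρ) :
    (z1 * z2 * ρ) ^ 2 - κ * (u1 * u2) = u1 * u2 * (z1 * z2) * (1 - d ^ 2 * κ ^ 2) := by
  have h1 := alg1 R1 R2 R5
  have h2 := alg2 R1 R2 R5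
  have h3 := rho_diff R1 R2 h R5
  have h4 : κ ^ 2 - u1 * u2 = ρ * (z1 * u1 + z2 * u2 + z1 * z2 * ρ) := by
    rw [K]
    linear_combination (-(u1 + z2 * ρ)) * h3
  have h5 : ρ * z1 * (1 + d ^ 2 * z2 * (z1 * u1 + z2 * u2))
      = z1 * z2 + u1 - d ^ 2 * z1 * z2 * u1 * u2 := by
    apply mul_right_cancel₀ h
    linear_combination (z1 * (1 + d ^ 2 * z2 * (z1 * u1 + z2 * u2))) * R5
      + (-d ^ 2 * u2 * (z1 ^ 2 + z1 * z2) * (1 - d ^ 2 * u1 ^ 2) - d ^ 2 * u1 ^ 2) * R2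
      + (-(1 + d ^ 2 * z1 * z2 * u1 * (1 - d ^ 2 * u2 ^ 2))
        - d ^ 2 * u1 * (z2 ^ 2 * (1 - d ^ 2 * u2 ^ 2))) * R1
  have h6 : (z1 * z2 * ρ) ^ 2
      = u1 * u2 * ((z1 + z2) * ρ - d ^ 2 * (z1 * z2 * ρ) ^ 2) := by
    linear_combination h2
  have h7 : (z1 + z2) * ρ - d ^ 2 * (z1 * z2 * ρ) ^ 2 - κ = z1 * z2 * (1 - d ^ 2 * κ ^ 2) := by
    linear_combination h5 + (d ^ 2 * z1 * z2) * h4 - K
  rw [h6]
  linear_combination (u1 * u2) * h7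

end alg

section formula

variable {F : Type} [Field F] [DecidableEq F]

/-- the slope case: if the chord (tangent) slope is `κ / (z1 z2 ρ)`, then `z3 = ρ / (1 - d² κ²)` -/
theorem slope_case {d z1 u1 z2 u2 ρ κ X3 Y3 l : F} (R1 : u1 = z1 ^ 2 * (1 - d ^ 2 * u1 ^ 2))
    (R2 : u2 = z2 ^ 2 * (1 - d ^ 2 * u2 ^ 2)) (h : 1 + d ^ 2 * u1 * u2 ≠ 0)
    (R5 : ρ * (1 + d ^ 2 * u1 * u2) = (z1 + z2) * (1 - d ^ 2 * u1 ^ 2) * (1 - d ^ 2 * u2 ^ 2))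
    (K : κ = u1 + z2 * ρ) (hu1 : u1 ≠ 0) (hu2 : u2 ≠ 0) (hz1 : z1 ≠ 0) (hz2 : z2 ≠ 0)
    (hρ : ρ ≠ 0) (hl : l = κ / (z1 * z2 * ρ)) (hX : X3 = l ^ 2 - u1⁻¹ - u2⁻¹)
    (hY : Y3 = -(l * (X3 - u1⁻¹) + (u1 * z1)⁻¹)) :
    X3 / Y3 = ρ / (1 - d ^ 2 * κ ^ 2) := by
  have h3 := alg3 R1 R2 h R5 K
  have h4 := alg4 R1 R2 h R5 K
  have hX' : X3 = u1 * u2 / (z1 * z2 * ρ) ^ 2 := by
    rw [hX, hl]
    field_simp
    linear_combination -h3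
  have hn : (u1 * z1)⁻¹ - l * u1⁻¹ = -1 / (z1 * z2 * ρ) := by
    rw [hl]
    field_simp
    linear_combination -K
  have hY' : Y3 = u1 * u2 * (z1 * z2) * (1 - d ^ 2 * κ ^ 2) / (z1 * z2 * ρ) ^ 3 := by
    rw [← h4]
    have : Y3 = -(l * X3 + ((u1 * z1)⁻¹ - l * u1⁻¹)) := by rw [hY]; ring
    rw [this, hn, hX', hl]
    field_simp
    ring
  rw [hX', hY']
  by_cases hk : 1 - d ^ 2 * κ ^ 2 = 0
  · rw [hk]
    simp
  · field_simp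

/-- THE FORMULA: `cz (p + q) = ρ / (1 - d² κ²)` with
`ρ = (z1 + z2)(1 - d² u1²)(1 - d² u2²)/(1 + d² u1 u2)`, `κ = u1 + z2 ρ`. -/
theorem cz_add {d : F} (h2 : (2 : F) ≠ 0) {p q : (W d).Point}
    (hp : p = 0 ∨ (cX p ≠ 0 ∧ cY p ≠ 0)) (hq : q = 0 ∨ (cX q ≠ 0 ∧ cY q ≠ 0))
    {z1 u1 z2 u2 ρ κ : F} (hz1 : z1 = cz p) (hz2 : z2 = cz q) (hu1 : u1 = (cX p)⁻¹)
    (hu2 : u2 = (cX q)⁻¹) (h : 1 + d ^ 2 * u1 * u2 ≠ 0)
    (h1' : 1 - d ^ 2 * u1 ^ 2 ≠ 0) (h2' : 1 - d ^ 2 * u2 ^ 2 ≠ 0)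
    (hρ : ρ = (z1 + z2) * (1 - d ^ 2 * u1 ^ 2) * (1 - d ^ 2 * u2 ^ 2) / (1 + d ^ 2 * u1 * u2))
    (hκ : κ = u1 + z2 * ρ) :
    cz (p + q) = ρ / (1 - d ^ 2 * κ ^ 2) := by
  have R5 : ρ * (1 + d ^ 2 * u1 * u2) = (z1 + z2) * (1 - d ^ 2 * u1 ^ 2) * (1 - d ^ 2 * u2 ^ 2) := by
    rw [hρ]
    exact div_mul_cancel₀ _ h
  have hz0 : cz (0 : (W d).Point) = 0 := by
    unfold cz
    rw [cX_zero, zero_div]
  rcases hp with rfl | ⟨hpX, hpY⟩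
  · -- p = 0
    rw [zero_add]
    rw [hz0] at hz1
    rw [cX_zero, inv_zero] at hu1
    subst hz1 hu1
    rcases hq with rfl | ⟨hqX, hqY⟩
    · rw [hz0] at hz2
      rw [hρ, hz2]
      simp [hz0]
    · have R2 := zu_rel hqY
      rw [← hz2, ← hu2] at R2
      have hρ' : ρ = z2 * (1 - d ^ 2 * u2 ^ 2) := by
        rw [hρ]
        ring_nf
      have hκ' : κ = u2 := by
        rw [hκ, hρ']
        linear_combination -R2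
      rw [hκ', hρ', mul_div_assoc, div_self h2', mul_one, ← hz2]
  rcases hq with rfl | ⟨hqX, hqY⟩
  · -- q = 0
    rw [add_zero]
    rw [hz0] at hz2
    rw [cX_zero, inv_zero] at hu2
    subst hz2 hu2
    have hρ' : ρ = z1 * (1 - d ^ 2 * u1 ^ 2) := by
      rw [hρ]
      ring_nf
    have hκ' : κ = u1 := by
      rw [hκ]
      ring
    rw [hκ', hρ', mul_div_assoc, div_self h1', mul_one, ← hz1]
  -- both nonzero
  have R1 := zu_rel hpY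
  rw [← hz1, ← hu1] at R1
  have R2 := zu_rel hqY
  rw [← hz2, ← hu2] at R2
  have hp0 := ne_zero_of_cX hpX
  have hq0 := ne_zero_of_cX hqX
  have hu1n : u1 ≠ 0 := by rw [hu1]; exact inv_ne_zero hpX
  have hu2n : u2 ≠ 0 := by rw [hu2]; exact inv_ne_zero hqX
  have hz1n : z1 ≠ 0 := by rw [hz1]; exact div_ne_zero hpX hpY
  have hz2n : z2 ≠ 0 := by rw [hz2]; exact div_ne_zero hqX hqY
  have eX1 : cX p = u1⁻¹ := by rw [hu1, inv_inv]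
  have eX2 : cX q = u2⁻¹ := by rw [hu2, inv_inv]
  have eY1 : cY p = (u1 * z1)⁻¹ := by
    rw [hu1, hz1]
    unfold cz
    field_simp
  have eY2 : cY q = (u2 * z2)⁻¹ := by
    rw [hu2, hz2]
    unfold cz
    field_simp
  by_cases hx : cX p = cX q
  · rcases eq_or_neg hp0 hq0 hx with hpq | hpq
    · -- doubling
      subst hpq
      have hzz : z2 = z1 := by rw [hz1, hz2]
      have huu : u2 = u1 := by rw [hu1, hu2]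
      subst hzz huu
      obtain ⟨-, hX3, hY3⟩ := add_self h2 hpY
      have hρn : ρ ≠ 0 := by
        rw [hρ]
        refine div_ne_zero (mul_ne_zero (mul_ne_zero ?_ h1') h1') h
        intro h0
        have h6 : (2 : F) * z2 = 0 := by linear_combination h0
        rcases mul_eq_zero.mp h6 with h0 | h0
        · exact h2 h0
        · exact hz1n h0
      refine slope_case R1 R2 h R5 hκ hu1n hu2n hz1n hz2n hρn
        (l := (3 * cX p ^ 2 - d ^ 2) / (2 * cY p)) ?_ ?_ ?_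
      · rw [div_eq_div_iff (mul_ne_zero h2 hpY) (mul_ne_zero (mul_ne_zero hz1n hz2n) hρn),
          eX1, eY1, hκ]
        field_simp
        apply mul_right_cancel₀ h
        linear_combination ((3 - d ^ 2 * u2 ^ 2) * z2 ^ 3 - 2 * u2 * z2) * R5
          + (2 * (3 - d ^ 2 * u2 ^ 2) * (-u2 - z2 ^ 2 * (1 - d ^ 2 * u2 ^ 2))
            + 4 * u2 * (1 - d ^ 2 * u2 ^ 2)) * R2
      · rw [hX3, eX1]
        ring
      · rw [hY3, eX1, eY1]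
    · -- opposite
      have hzz : z1 = -z2 := by
        rw [hz1, hz2, hpq]
        unfold cz
        rw [cX_neg, cY_neg, div_neg]
      have hρ0 : ρ = 0 := by
        rw [hρ, hzz]
        ring_nf
      rw [hρ0, zero_div, hpq, neg_add_cancel, hz0]
  · obtain ⟨-, hX3, hY3⟩ := add_ne hp0 hq0 hx
    have hd := rho_diff R1 R2 h R5
    have huu : u1 - u2 ≠ 0 := by
      intro h0
      apply hx
      rw [eX1, eX2, sub_eq_zero.mp h0]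
    have hρn : ρ ≠ 0 := by
      rintro rfl
      apply huu
      rw [← hd, zero_mul]
    refine slope_case R1 R2 h R5 hκ hu1n hu2n hz1n hz2n hρn
      (l := (cY p - cY q) / (cX p - cX q)) ?_ ?_ ?_
    · rw [eX1, eX2, eY1, eY2, hκ]
      have h5 : u1⁻¹ - u2⁻¹ ≠ 0 := by
        rw [← eX1, ← eX2]
        exact sub_ne_zero.mpr hx
      rw [div_eq_div_iff h5 (mul_ne_zero (mul_ne_zero hz1n hz2n) hρn)]
      field_simp
      linear_combination (-u1) * hd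
    · rw [hX3, eX1, eX2]
    · rw [hY3, eX1, eY1]

end formula

end Pool.Agent.WAP.H32
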