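import Pool.Agent.WAP.StmtsT
import Pool.Agent.Helper32_WAP.ZForm

/-!
# WAP row ZAD (helper32): `cz` is almost additive near the origin
-/

namespace Pool.Agent.WAP.H32

open Classical

theorem two_ne_of_good {F : Type} [NormedField F] [Algebra GaussianInt F] (h : GoodF F) :
    (2 : F) ≠ 0 := by
  have h1 := h.1 2 (by decide)
  rwa [map_ofNat] at h1

/-- the factor `θ`: `cz (p+q) = (z1 + z2) θ` -/
noncomputable def theta {F : Type} [Field F] (d : F) (v : F × F × F × F) : F :=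
  (1 - d ^ 2 * v.1 ^ 2) * (1 - d ^ 2 * v.2.1 ^ 2) / (1 + d ^ 2 * v.1 * v.2.1) /
  (1 - d ^ 2 * (v.1 + v.2.2.2 * ((v.2.2.1 + v.2.2.2) * (1 - d ^ 2 * v.1 ^ 2) *
    (1 - d ^ 2 * v.2.1 ^ 2) / (1 + d ^ 2 * v.1 * v.2.1))) ^ 2)

theorem theta_cont {F : Type} [NormedField F] (d : F) : ContinuousAt (theta d) (0, 0, 0, 0) := by
  unfold theta
  have h1 : ContinuousAt (fun v : F × F × F × F => 1 - d ^ 2 * v.1 ^ 2) (0, 0, 0, 0) := by fun_prop
  have h2 : ContinuousAt (fun v : F × F × F × F => 1 - d ^ 2 * v.2.1 ^ 2) (0, 0, 0, 0) := by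
    fun_prop
  have h3 : ContinuousAt (fun v : F × F × F × F => 1 + d ^ 2 * v.1 * v.2.1) (0, 0, 0, 0) := by
    fun_prop
  have h4 : ContinuousAt (fun v : F × F × F × F => (v.2.2.1 + v.2.2.2) * (1 - d ^ 2 * v.1 ^ 2) *
    (1 - d ^ 2 * v.2.1 ^ 2) / (1 + d ^ 2 * v.1 * v.2.1)) (0, 0, 0, 0) := by
    apply ContinuousAt.div
    · fun_prop
    · exact h3
    · simp
  apply ContinuousAt.div
  · apply ContinuousAt.div (h1.mul h2) h3
    simp
  · have h5 : ContinuousAt (fun v : F × F × F × F => v.1 + v.2.2.2 * ((v.2.2.1 + v.2.2.2) *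
      (1 - d ^ 2 * v.1 ^ 2) * (1 - d ^ 2 * v.2.1 ^ 2) / (1 + d ^ 2 * v.1 * v.2.1)))
      (0, 0, 0, 0) := by
      apply ContinuousAt.add
      · fun_prop
      · apply ContinuousAt.mul
        · fun_prop
        · exact h4
    exact continuousAt_const.sub (continuousAt_const.mul (h5.pow 2))
  · simp

theorem zad : ZadStmt := by
  intro F _ _ hF d hd ε hε
  have h2 := two_ne_of_good hF
  have hc := theta_cont d
  have h0 : theta d (0, 0, 0, 0) = 1 := by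
    unfold theta
    simp
  rw [Metric.continuousAt_iff] at hc
  obtain ⟨δ, hδ, hc⟩ := hc (ε / 2) (by positivity)
  rw [h0] at hc
  -- small enough that the denominators do not vanish
  have hd0 : 0 < ‖d‖ := norm_pos_iff.mpr hd
  set δ' : ℝ := min δ (1 / (2 * ‖d‖)) with hδ'
  have hδ'0 : 0 < δ' := lt_min hδ (by positivity)
  obtain ⟨N, hN, hnear⟩ := near hd hδ'0
  refine ⟨N, ?_⟩
  have hz0 : cz (0 : Pt d) = 0 := by
    unfold cz
    rw [cX_zero, zero_div]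
  have key : ∀ p : Pt d, Big N p → (p = 0 ∨ (cX p ≠ 0 ∧ cY p ≠ 0)) ∧ ‖(cX p)⁻¹‖ < δ' ∧ ‖cz p‖ < δ' := by
    intro p hp
    rcases hnear p hp with h | h
    · subst h
      refine ⟨Or.inl rfl, ?_, ?_⟩
      · rw [cX_zero, inv_zero, norm_zero]
        exact hδ'0
      · rw [hz0, norm_zero]
        exact hδ'0
    · exact ⟨Or.inr ⟨h.1, h.2.1⟩, h.2.2.1, h.2.2.2.1⟩
  intro p q hp hq
  obtain ⟨hp1, hp2, hp3⟩ := key p hp
  obtain ⟨hq1, hq2, hq3⟩ := key q hq
  have hsm : ∀ a b : F, ‖a‖ < δ' → ‖b‖ < δ' → ‖d ^ 2 * (a * b)‖ < 1 := by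
    intro a b ha hb
    have ha' : ‖d‖ * ‖a‖ < 1 / 2 := by
      have := lt_of_lt_of_le ha (min_le_right _ _)
      rw [lt_div_iff₀ (by positivity)] at this
      nlinarith
    have hb' : ‖d‖ * ‖b‖ < 1 / 2 := by
      have := lt_of_lt_of_le hb (min_le_right _ _)
      rw [lt_div_iff₀ (by positivity)] at this
      nlinarith
    have : ‖d ^ 2 * (a * b)‖ = (‖d‖ * ‖a‖) * (‖d‖ * ‖b‖) := by
      rw [norm_mul, norm_pow, norm_mul]; ring
    rw [this]
    have h3 : 0 ≤ ‖d‖ * ‖a‖ := by positivity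
    have h4 : 0 ≤ ‖d‖ * ‖b‖ := by positivity
    nlinarith
  have hne1 : ∀ a b : F, ‖a‖ < δ' → ‖b‖ < δ' → 1 + d ^ 2 * a * b ≠ 0 := by
    intro a b ha hb h
    have h5 := hsm a b ha hb
    have : d ^ 2 * (a * b) = -1 := by linear_combination h
    rw [this, norm_neg, norm_one] at h5
    exact lt_irrefl _ h5
  have hne2 : ∀ a : F, ‖a‖ < δ' → 1 - d ^ 2 * a ^ 2 ≠ 0 := by
    intro a ha h
    have h5 := hsm a a ha ha
    have : d ^ 2 * (a * a) = 1 := by linear_combination -h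
    rw [this, norm_one] at h5
    exact lt_irrefl _ h5
  have hform := cz_add h2 hp1 hq1 rfl rfl rfl rfl (hne1 _ _ hp2 hq2) (hne2 _ hp2) (hne2 _ hq2) rfl rfl
  have hth := @hc ((cX p)⁻¹, (cX q)⁻¹, cz p, cz q) (by
    rw [dist_eq_norm]
    have : ((cX p)⁻¹, (cX q)⁻¹, cz p, cz q) - ((0 : F), (0 : F), (0 : F), (0 : F))
      = ((cX p)⁻¹, (cX q)⁻¹, cz p, cz q) := by simp
    rw [this]
    simp only [Prod.norm_def]
    have hle := min_le_left δ (1 / (2 * ‖d‖))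
    rw [← hδ'] at hle
    refine max_lt (by linarith) (max_lt (by linarith) (max_lt (by linarith) (by linarith))))
  have hform' : cz (p + q) = (cz p + cz q) * theta d ((cX p)⁻¹, (cX q)⁻¹, cz p, cz q) := by
    rw [hform]
    unfold theta
    have aux : ∀ a b c D E : F, a * b * c / D / E = a * (b * c / D / E) := by
      intro a b c D E
      rw [mul_assoc, mul_div_assoc, mul_div_assoc]
    exact aux _ _ _ _ _
  have : cz (p + q) - cz p - cz q
      = (cz p + cz q) * (theta d ((cX p)⁻¹, (cX q)⁻¹, cz p, cz q) - 1) := by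
    rw [hform']; ring
  rw [this, norm_mul]
  rw [dist_eq_norm] at hth
  have h6 : ‖cz p + cz q‖ ≤ 2 * max ‖cz p‖ ‖cz q‖ := by
    have := norm_add_le (cz p) (cz q)
    have h7 := le_max_left ‖cz p‖ ‖cz q‖
    have h8 := le_max_right ‖cz p‖ ‖cz q‖
    linarith
  have h9 : 0 ≤ max ‖cz p‖ ‖cz q‖ := le_trans (norm_nonneg _) (le_max_left _ _)
  calc ‖cz p + cz q‖ * ‖theta d ((cX p)⁻¹, (cX q)⁻¹, cz p, cz q) - 1‖
      ≤ (2 * max ‖cz p‖ ‖cz q‖) * (ε / 2) := by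
        apply mul_le_mul h6 hth.le (norm_nonneg _) (by positivity)
    _ = ε * max ‖cz p‖ ‖cz q‖ := by ring

end Pool.Agent.WAP.H32
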