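import Pool.Agent.WAP.StmtsB

/-!
# WAP (helper32): the smooth projective model of the K3 surface and the final theorem

`q4 (a, b) = a ^ 3 * b - a * b ^ 3`.  The K3 surface `X` (the Kummer surface of `E x E`,
`E : Y ^ 2 = X ^ 3 - X`, i.e. the minimal resolution of the double covering
`y ^ 2 = q4 (x0, x1) * q4 (t0, t1)` of `P^1 x P^1` with 16 nodes) is the surface
`q4 (x0, x1) * V ^ 2 = U ^ 2 * q4 (t0, t1)` in the projective bundle
`P (O(2,0) + O(0,2))` over `P^1 x P^1`, where `(x0 : x1)`, `(t0 : t1)` are the coordinates on the base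
and `(U : V)` the fibre coordinates.  Over a field its points are the orbits of `(F*)^3` on the
solutions with `(x0, x1), (t0, t1), (U, V) ≠ 0`, where `(l, m, n)` acts by
`(l x0, l x1, m t0, m t1, n l ^ 2 U, n m ^ 2 V)`.  The surface is smooth: the gradient of the equation is
`(V ^ 2 ∇q4 (x), - U ^ 2 ∇q4 (t), ..)` and `∇q4` has no zero besides the origin; its class is the
anticanonical class `(4, 4, 2)`.
-/

namespace Pool.Agent.WAP

open IsDedekindDomain

/-- the binary quartic form `a ^ 3 b - a b ^ 3` -/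
def q4 {F : Type} [Field F] (p : F × F) : F := p.1 ^ 3 * p.2 - p.1 * p.2 ^ 3

/-- homogeneous coordinates `((x0, x1), (t0, t1), (U, V))` of the points of the K3 surface -/
def XCone (F : Type) [Field F] : Set ((F × F) × (F × F) × (F × F)) :=
  {p | p.1 ≠ 0 ∧ p.2.1 ≠ 0 ∧ p.2.2 ≠ 0 ∧ q4 p.1 * p.2.2.2 ^ 2 = p.2.2.1 ^ 2 * q4 p.2.1}

/-- the action of the torus -/
def XAct {F : Type} [Field F] (l m n : F) (p : (F × F) × (F × F) × (F × F)) :
    (F × F) × (F × F) × (F × F) :=
  ((l * p.1.1, l * p.1.2), (m * p.2.1.1, m * p.2.1.2), (n * l ^ 2 * p.2.2.1, n * m ^ 2 * p.2.2.2))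

/-- equality of points of the K3 surface in homogeneous coordinates -/
def XSetoid (F : Type) [Field F] : Setoid (XCone F) where
  r p q := ∃ l m n : F, l ≠ 0 ∧ m ≠ 0 ∧ n ≠ 0 ∧ q.1 = XAct l m n p.1
  iseqv := {
    refl := fun p => ⟨1, 1, 1, one_ne_zero, one_ne_zero, one_ne_zero, by
      simp [XAct]⟩
    symm := by
      rintro p q ⟨l, m, n, hl, hm, hn, h⟩
      refine ⟨l⁻¹, m⁻¹, n⁻¹, inv_ne_zero hl, inv_ne_zero hm, inv_ne_zero hn, ?_⟩
      rw [h]
      unfold XAct
      ext <;> simp <;> field_simp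
    trans := by
      rintro p q r ⟨l, m, n, hl, hm, hn, h⟩ ⟨l', m', n', hl', hm', hn', h'⟩
      refine ⟨l' * l, m' * m, n' * n, mul_ne_zero hl' hl, mul_ne_zero hm' hm, mul_ne_zero hn' hn, ?_⟩
      rw [h', h]
      unfold XAct
      ext <;> simp <;> ring }

/-- **The set `X(F)`** of `F`-points of the smooth projective K3 surface. -/
def XK3 (F : Type) [Field F] : Type := Quotient (XSetoid F)

/-- the topology of `X(F)` for a topological field `F` -/
instance XK3.top (F : Type) [Field F] [TopologicalSpace F] : TopologicalSpace (XK3 F) :=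
  inferInstanceAs (TopologicalSpace (Quotient (XSetoid F)))

/-- base change of homogeneous coordinates -/
def XCone.map {K F : Type} [Field K] [Field F] (σ : K →+* F) (p : XCone K) : XCone F :=
  ⟨((σ p.1.1.1, σ p.1.1.2), (σ p.1.2.1.1, σ p.1.2.1.2), (σ p.1.2.2.1, σ p.1.2.2.2)), by
    obtain ⟨⟨⟨x0, x1⟩, ⟨t0, t1⟩, ⟨U, V⟩⟩, h1, h2, h3, h4⟩ := p
    have key : ∀ a b : K, (a, b) ≠ 0 → ((σ a, σ b) : F × F) ≠ 0 := by
      intro a b hab h
      apply hab
      rw [Prod.mk_eq_zero] at h ⊢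
      exact ⟨(map_eq_zero σ).1 h.1, (map_eq_zero σ).1 h.2⟩
    refine ⟨key _ _ h1, key _ _ h2, key _ _ h3, ?_⟩
    have h := congrArg σ h4
    simpa only [q4, map_mul, map_pow, map_sub] using h⟩

/-- **Base change of points**, `X(K) → X(F)`. -/
def XK3.map {K F : Type} [Field K] [Field F] (σ : K →+* F) : XK3 K → XK3 F :=
  Quotient.map' (s₁ := XSetoid K) (s₂ := XSetoid F) (XCone.map σ) (by
    rintro p q ⟨l, m, n, hl, hm, hn, h⟩
    refine ⟨σ l, σ m, σ n, (map_ne_zero σ).2 hl, (map_ne_zero σ).2 hm, (map_ne_zero σ).2 hn, ?_⟩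
    show (((σ q.1.1.1, σ q.1.1.2), (σ q.1.2.1.1, σ q.1.2.1.2), (σ q.1.2.2.1, σ q.1.2.2.2)) :
      (F × F) × (F × F) × (F × F)) = _
    rw [h]
    simp [XAct, XCone.map, map_mul, map_pow])

/-- **The final statement**: for `K = Q(i)` (any fraction field of the Gaussian integers, with an
embedding in `C`) the points `X(K)` are dense in the product of `X(K_v)` over ALL places: the
finite ones are the primes of `Z[i]`, the only infinite one is complex. -/
def ProjStmt : Prop :=
  ∀ (K : Type) [Field K] [Algebra GaussianInt K] [IsFractionRing GaussianInt K] (σ : K →+* ℂ),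
    DenseRange (fun z : XK3 K =>
      (((fun v : HeightOneSpectrum GaussianInt =>
        XK3.map (algebraMap K (v.adicCompletion K)) z), XK3.map σ z) :
        (∀ v : HeightOneSpectrum GaussianInt, XK3 (v.adicCompletion K)) × XK3 ℂ))

end Pool.Agent.WAP

namespace Pool.Agent.WAP.H32

open IsDedekindDomain Topology

theorem two_ne_loc {F : Type} [NormedField F] [Algebra GaussianInt F] {ϖ : GaussianInt}
    (hF : IsLoc F ϖ) : (2 : F) ≠ 0 := by
  intro h0
  -- all powers of ϖ divide 2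
  have h1 : ∀ a : GaussianInt, algebraMap GaussianInt F a = 0 → ∃ b, a = ϖ * b ∧
      algebraMap GaussianInt F b = 0 := by
    intro a ha
    have h2 : ϖ ∣ a := by
      rw [← hF.lt_one, ha, norm_zero]
      exact zero_lt_one
    obtain ⟨b, rfl⟩ := h2
    refine ⟨b, rfl, ?_⟩
    rw [map_mul] at ha
    rcases mul_eq_zero.mp ha with h | h
    · have := hF.uni
      rw [h, norm_zero] at this
      exact absurd this (lt_irrefl _)
    · exact h
  have h2 : ∀ n : ℕ, ∀ a : GaussianInt, algebraMap GaussianInt F a = 0 → ϖ ^ n ∣ a := by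
    intro n
    induction n with
    | zero => intro a _; simp
    | succ n ih =>
      intro a ha
      obtain ⟨b, hb, hb0⟩ := h1 a ha
      rw [hb, pow_succ']
      exact mul_dvd_mul_left ϖ (ih b hb0)
  have h3 : algebraMap GaussianInt F 2 = 0 := by
    rw [map_ofNat]; exact h0
  have h4 : FiniteMultiplicity ϖ (2 : GaussianInt) :=
    FiniteMultiplicity.of_prime_left hF.prime (by decide)
  obtain ⟨n, hn⟩ := h4
  exact hn (h2 (n + 1) 2 h3)

section alg

variable {F : Type} [Field F]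

theorem q4_smul (l : F) (p : F × F) : q4 (l * p.1, l * p.2) = l ^ 4 * q4 p := by
  unfold q4
  ring

/-- the homogeneous coordinates of a point of the open part -/
def iotaC (z : XU F) : XCone F :=
  ⟨((z.1.1, 1), (z.1.2.1, 1), (z.1.2.2, q4 (z.1.2.1, 1))), by
    obtain ⟨⟨x, t, y⟩, h1, h2⟩ := z
    simp only at h1 h2 ⊢
    refine ⟨?_, ?_, ?_, ?_⟩
    · intro h
      rw [Prod.mk_eq_zero] at h
      exact one_ne_zero h.2
    · intro h
      rw [Prod.mk_eq_zero] at h
      exact one_ne_zero h.2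
    · intro h
      rw [Prod.mk_eq_zero] at h
      exact h2 h.1
    · simp only [q4]
      rw [h1]
      ring⟩

/-- the open part in `X` -/
def iota (z : XU F) : XK3 F := Quotient.mk (XSetoid F) (iotaC z)

/-- points with nonzero coordinates come from the open part -/
theorem mem_range_iota (p : XCone F) (hx : q4 p.1.1 ≠ 0) (ht : q4 p.1.2.1 ≠ 0)
    (hU : p.1.2.2.1 ≠ 0) (hV : p.1.2.2.2 ≠ 0) :
    Quotient.mk (XSetoid F) p ∈ Set.range (iota : XU F → XK3 F) := by
  obtain ⟨⟨⟨x0, x1⟩, ⟨t0, t1⟩, ⟨U, V⟩⟩, h1, h2, h3, h4⟩ := p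
  simp only at hx ht hU hV h4 ⊢
  have hx1 : x1 ≠ 0 := by
    rintro rfl
    apply hx
    simp [q4]
  have ht1 : t1 ≠ 0 := by
    rintro rfl
    apply ht
    simp [q4]
  have hfT : q4 (t0 / t1, 1) = q4 (t0, t1) / t1 ^ 4 := by
    unfold q4
    field_simp
  have hfX : q4 (x0 / x1, 1) = q4 (x0, x1) / x1 ^ 4 := by
    unfold q4
    field_simp
  have hc : ∀ s : F, s ^ 3 - s = q4 (s, 1) := by
    intro s
    unfold q4
    ring
  refine ⟨⟨(x0 / x1, t0 / t1, q4 (t0, t1) * U / (t1 ^ 2 * x1 ^ 2 * V)), ?_, ?_⟩, ?_⟩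
  · simp only
    rw [hc, hc, hfT, hfX]
    field_simp
    linear_combination -h4
  · exact div_ne_zero (mul_ne_zero ht hU) (mul_ne_zero (mul_ne_zero (pow_ne_zero 2 ht1)
      (pow_ne_zero 2 hx1)) hV)
  · apply Quotient.sound
    refine ⟨x1, t1, t1 ^ 2 * V / q4 (t0, t1), hx1, ht1,
      div_ne_zero (mul_ne_zero (pow_ne_zero 2 ht1) hV) ht, ?_⟩
    simp only [iotaC, XAct]
    rw [hfT]
    ext
    · simp only
      field_simp
    · simp only
      field_simp
    · simp only
      field_simp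
    · simp only
      field_simp
    · simp only
      field_simp
    · simp only
      field_simp

end alg

section top

theorem iota_cont {F : Type} [NormedField F] : Continuous (iota : XU F → XK3 F) := by
  have h1 : Continuous (iotaC : XU F → XCone F) := by
    unfold iotaC q4
    apply Continuous.subtype_mk
    fun_prop
  exact continuous_quotient_mk'.comp h1

/-- the gradient of `q4` vanishes only at the origin: the values near `q4 p` are attained near `p` -/
theorem solve {F : Type} [NormedField F] [CompleteSpace F] (h2 : (2 : F) ≠ 0)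
    (hn : ∃ x : F, x ≠ 0 ∧ ‖x‖ ≠ 1) (p : F × F) (hp : p ≠ 0) (N : Set (F × F)) (hN : N ∈ 𝓝 p) :
    ∃ M ∈ 𝓝 (q4 p), ∀ c ∈ M, ∃ p' ∈ N, q4 p' = c := by
  let _ : NontriviallyNormedField F := NontriviallyNormedField.ofNormNeOne hn
  obtain ⟨a, b⟩ := p
  have grad : 3 * a ^ 2 * b - b ^ 3 ≠ 0 ∨ a ^ 3 - 3 * a * b ^ 2 ≠ 0 := by
    by_contra hcon
    push Not at hcon
    obtain ⟨e1, e2⟩ := hcon
    apply hp
    have h8 : (8 : F) ≠ 0 := by
      have : (8 : F) = 2 ^ 3 := by norm_num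
      rw [this]; exact pow_ne_zero 3 h2
    have hb : b = 0 := by
      by_contra hb
      have h3 : b * (3 * a ^ 2 - b ^ 2) = 0 := by linear_combination e1
      have h4 : 3 * a ^ 2 = b ^ 2 := by
        rcases mul_eq_zero.mp h3 with h | h
        · exact absurd h hb
        · linear_combination h
      have h5 : a * (a ^ 2 - 3 * b ^ 2) = 0 := by linear_combination e2
      rcases mul_eq_zero.mp h5 with h | h
      · rw [h] at h4
        exact hb (pow_eq_zero_iff (two_ne_zero) |>.mp (by linear_combination -h4))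
      · have h6 : 8 * b ^ 2 = 0 := by linear_combination h4 - 3 * h
        rcases mul_eq_zero.mp h6 with h | h
        · exact h8 h
        · exact hb (pow_eq_zero_iff (two_ne_zero) |>.mp h)
    have ha : a = 0 := by
      rw [hb] at e2
      exact pow_eq_zero_iff (three_ne_zero) |>.mp (by linear_combination e2)
    rw [ha, hb]
    rfl
  rcases grad with hg | hg
  · -- vary the first coordinate
    have hd : HasStrictDerivAt (fun s : F => q4 (s, b)) (3 * a ^ 2 * b - b ^ 3) a := by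
      unfold q4
      have h1 : HasStrictDerivAt (fun s : F => s ^ 3 * b) (3 * a ^ 2 * b) a := by
        have := ((hasStrictDerivAt_id a).pow 3).mul_const b
        simpa using this
      have h3 : HasStrictDerivAt (fun s : F => s * b ^ 3) (b ^ 3) a := by
        have := (hasStrictDerivAt_id a).mul_const (b ^ 3)
        simpa using this
      exact h1.sub h3
    have hm := hd.map_nhds_eq hg
    have hN' : (fun s : F => (s, b)) ⁻¹' N ∈ 𝓝 a := by
      have hc : ContinuousAt (fun s : F => (s, b)) a := by fun_prop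
      exact hc hN
    refine ⟨(fun s : F => q4 (s, b)) '' ((fun s : F => (s, b)) ⁻¹' N), ?_, ?_⟩
    · rw [← hm]
      exact Filter.image_mem_map hN'
    · rintro c ⟨s, hs, rfl⟩
      exact ⟨(s, b), hs, rfl⟩
  · have hd : HasStrictDerivAt (fun s : F => q4 (a, s)) (a ^ 3 - 3 * a * b ^ 2) b := by
      unfold q4
      have h1 : HasStrictDerivAt (fun s : F => a ^ 3 * s) (a ^ 3) b := by
        have := (hasStrictDerivAt_id b).const_mul (a ^ 3)
        simpa using this
      have h3 : HasStrictDerivAt (fun s : F => a * s ^ 3) (3 * a * b ^ 2) b := by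
        have := ((hasStrictDerivAt_id b).pow 3).const_mul a
        have e : a * (3 * b ^ 2) = 3 * a * b ^ 2 := by ring
        rw [← e]
        simpa using this
      exact h1.sub h3
    have hm := hd.map_nhds_eq hg
    have hN' : (fun s : F => (a, s)) ⁻¹' N ∈ 𝓝 b := by
      have hc : ContinuousAt (fun s : F => (a, s)) b := by fun_prop
      exact hc hN
    refine ⟨(fun s : F => q4 (a, s)) '' ((fun s : F => (a, s)) ⁻¹' N), ?_, ?_⟩
    · rw [← hm]
      exact Filter.image_mem_map hN'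
    · rintro c ⟨s, hs, rfl⟩
      exact ⟨(a, s), hs, rfl⟩

/-- every neighbourhood contains a nonzero element -/
theorem exists_ne {F : Type} [NormedField F] (hn : ∃ x : F, x ≠ 0 ∧ ‖x‖ ≠ 1) (a : F) (M : Set F)
    (hM : M ∈ 𝓝 a) : ∃ c ∈ M, c ≠ 0 := by
  let _ : NontriviallyNormedField F := NontriviallyNormedField.ofNormNeOne hn
  by_cases ha : a = 0
  · subst ha
    have h1 : (𝓝[≠] (0 : F)).NeBot := inferInstance
    have h2 : M ∩ {0}ᶜ ∈ 𝓝[≠] (0 : F) := Filter.inter_mem (mem_nhdsWithin_of_mem_nhds hM)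
      self_mem_nhdsWithin
    obtain ⟨c, hc1, hc2⟩ := h1.nonempty_of_mem h2
    exact ⟨c, hc1, hc2⟩
  · exact ⟨a, mem_of_mem_nhds hM, ha⟩

theorem q4_ne {F : Type} [Field F] {p : F × F} (h : q4 p ≠ 0) : p ≠ 0 := by
  rintro rfl
  apply h
  simp [q4]

theorem iota_dense {F : Type} [NormedField F] [CompleteSpace F] (h2 : (2 : F) ≠ 0)
    (hn : ∃ x : F, x ≠ 0 ∧ ‖x‖ ≠ 1) : DenseRange (iota : XU F → XK3 F) := by
  rw [DenseRange, dense_iff_inter_open]
  rintro O hO ⟨z, hz⟩
  obtain ⟨p, rfl⟩ := Quotient.exists_rep z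
  have hP : IsOpen ((Quotient.mk (XSetoid F)) ⁻¹' O) := hO.preimage continuous_quotient_mk'
  obtain ⟨W, hW, hWP⟩ := isOpen_induced_iff.1 hP
  have hpW : p.1 ∈ W := by
    have : p ∈ Subtype.val ⁻¹' W := by rw [hWP]; exact hz
    exact this
  -- it is enough to find a point with nonzero coordinates in `W`
  have fin : ∀ p' : XCone F, p'.1 ∈ W → q4 p'.1.1 ≠ 0 → q4 p'.1.2.1 ≠ 0 → p'.1.2.2.1 ≠ 0 →
      p'.1.2.2.2 ≠ 0 → (O ∩ Set.range (iota : XU F → XK3 F)).Nonempty := by
    intro p' h3 h4 h5 h6 h7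
    refine ⟨Quotient.mk (XSetoid F) p', ?_, mem_range_iota p' h4 h5 h6 h7⟩
    have : p' ∈ Subtype.val ⁻¹' W := h3
    rw [hWP] at this
    exact this
  obtain ⟨⟨x, t, ⟨U, V⟩⟩, hx, ht, hUV, he⟩ := p
  simp only at hx ht hUV he hpW
  obtain ⟨Nx, hNx, R, hR, hNR⟩ := mem_nhds_prod_iff.1 (hW.mem_nhds hpW)
  obtain ⟨Nt, hNt, R', hR', hNR'⟩ := mem_nhds_prod_iff.1 hR
  obtain ⟨NU, hNU, NV, hNV, hNUV⟩ := mem_nhds_prod_iff.1 hR'
  have inW : ∀ x' ∈ Nx, ∀ t' ∈ Nt, ∀ U' ∈ NU, ∀ V' ∈ NV, (x', t', (U', V')) ∈ W := by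
    intro x' h3 t' h4 U' h5 V' h6
    exact hNR ⟨h3, hNR' ⟨h4, hNUV ⟨h5, h6⟩⟩⟩
  by_cases hV : V = 0
  · -- then `U ≠ 0`
    have hU : U ≠ 0 := by
      intro h
      apply hUV
      rw [h, hV]
      rfl
    obtain ⟨M, hM, hMs⟩ := solve h2 hn t ht Nt hNt
    have hg : ContinuousAt (fun v : (F × F) × F => q4 v.1 * v.2 ^ 2 / U ^ 2) (x, V) := by
      unfold q4
      apply ContinuousAt.div
      · fun_prop
      · fun_prop
      · exact pow_ne_zero 2 hU
    have hgv : q4 x * V ^ 2 / U ^ 2 = q4 t := by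
      rw [he]
      field_simp
    have hgM : (fun v : (F × F) × F => q4 v.1 * v.2 ^ 2 / U ^ 2) ⁻¹' M ∈ 𝓝 (x, V) := by
      apply hg
      simp only
      rw [hgv]
      exact hM
    obtain ⟨Nx', hNx', NV', hNV', hsub⟩ := mem_nhds_prod_iff.1 hgM
    obtain ⟨M', hM', hMs'⟩ := solve h2 hn x hx (Nx ∩ Nx') (Filter.inter_mem hNx hNx')
    obtain ⟨c, hc, hc0⟩ := exists_ne hn _ M' hM'
    obtain ⟨x', hx', hqx⟩ := hMs' c hc
    obtain ⟨V', hV', hV0⟩ := exists_ne hn _ (NV ∩ NV') (Filter.inter_mem hNV hNV')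
    have hqx0 : q4 x' ≠ 0 := by rw [hqx]; exact hc0
    have h8 : q4 x' * V' ^ 2 / U ^ 2 ∈ M := by
      have h9 : (x', V') ∈ Nx' ×ˢ NV' := ⟨hx'.2, hV'.2⟩
      exact hsub h9
    obtain ⟨t', ht', hqt⟩ := hMs _ h8
    have hqt0 : q4 t' ≠ 0 := by
      rw [hqt]
      exact div_ne_zero (mul_ne_zero hqx0 (pow_ne_zero 2 hV0)) (pow_ne_zero 2 hU)
    refine fin ⟨(x', t', (U, V')), q4_ne hqx0, q4_ne hqt0, ?_, ?_⟩
      (inW x' hx'.1 t' ht' U (mem_of_mem_nhds hNU) V' hV'.1) hqx0 hqt0 hU hV0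
    · intro h
      rw [Prod.mk_eq_zero] at h
      exact hU h.1
    · simp only
      rw [hqt]
      field_simp
  · obtain ⟨M, hM, hMs⟩ := solve h2 hn x hx Nx hNx
    have hg : ContinuousAt (fun v : (F × F) × F => v.2 ^ 2 * q4 v.1 / V ^ 2) (t, U) := by
      unfold q4
      apply ContinuousAt.div
      · fun_prop
      · fun_prop
      · exact pow_ne_zero 2 hV
    have hgv : U ^ 2 * q4 t / V ^ 2 = q4 x := by
      rw [← he]
      field_simp
    have hgM : (fun v : (F × F) × F => v.2 ^ 2 * q4 v.1 / V ^ 2) ⁻¹' M ∈ 𝓝 (t, U) := by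
      apply hg
      simp only
      rw [hgv]
      exact hM
    obtain ⟨Nt', hNt', NU', hNU', hsub⟩ := mem_nhds_prod_iff.1 hgM
    obtain ⟨M', hM', hMs'⟩ := solve h2 hn t ht (Nt ∩ Nt') (Filter.inter_mem hNt hNt')
    obtain ⟨c, hc, hc0⟩ := exists_ne hn _ M' hM'
    obtain ⟨t', ht', hqt⟩ := hMs' c hc
    obtain ⟨U', hU', hU0⟩ := exists_ne hn _ (NU ∩ NU') (Filter.inter_mem hNU hNU')
    have hqt0 : q4 t' ≠ 0 := by rw [hqt]; exact hc0
    have h8 : U' ^ 2 * q4 t' / V ^ 2 ∈ M := by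
      have h9 : (t', U') ∈ Nt' ×ˢ NU' := ⟨ht'.2, hU'.2⟩
      exact hsub h9
    obtain ⟨x', hx', hqx⟩ := hMs _ h8
    have hqx0 : q4 x' ≠ 0 := by
      rw [hqx]
      exact div_ne_zero (mul_ne_zero (pow_ne_zero 2 hU0) hqt0) (pow_ne_zero 2 hV)
    refine fin ⟨(x', t', (U', V)), q4_ne hqx0, q4_ne hqt0, ?_, ?_⟩
      (inW x' hx' t' ht'.1 U' hU'.1 V (mem_of_mem_nhds hNV)) hqx0 hqt0 hU0 hV
    · intro h
      rw [Prod.mk_eq_zero] at h
      exact hV h.2
    · simp only
      rw [hqx]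
      field_simp

theorem map_iota {K F : Type} [Field K] [Field F] (σ : K →+* F) (z : XU K) :
    XK3.map σ (iota z) = iota (XU.map σ z) := by
  unfold iota XK3.map
  rw [Quotient.map'_mk]
  congr 1
  apply Subtype.ext
  simp [XCone.map, iotaC, XU.map, q4]

/-- **The final theorem**, from the affine version. -/
theorem proj (hblo : BloStmt) (hbfi : BfiStmt) : ProjStmt := by
  intro K _ _ _ σ
  have hloc : ∀ v : HeightOneSpectrum GaussianInt,
      DenseRange (iota : XU (v.adicCompletion K) → XK3 (v.adicCompletion K)) := by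
    intro v
    obtain ⟨ϖ, -, hF⟩ := hblo K v
    have := hF.complete
    refine iota_dense (two_ne_loc hF) ⟨algebraMap GaussianInt _ ϖ, ?_, ?_⟩
    · exact norm_pos_iff.mp hF.uni
    · exact ne_of_lt ((hF.lt_one ϖ).2 (dvd_refl ϖ))
  have hC : DenseRange (iota : XU ℂ → XK3 ℂ) := by
    refine iota_dense two_ne_zero ⟨2, two_ne_zero, ?_⟩
    norm_num
  have h1 := hbfi K σ
  have h2 : DenseRange (Prod.map (Pi.map fun v : HeightOneSpectrum GaussianInt =>
      (iota : XU (v.adicCompletion K) → XK3 (v.adicCompletion K))) (iota : XU ℂ → XK3 ℂ)) :=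
    (DenseRange.piMap hloc).prodMap hC
  have h3 : Continuous (Prod.map (Pi.map fun v : HeightOneSpectrum GaussianInt =>
      (iota : XU (v.adicCompletion K) → XK3 (v.adicCompletion K))) (iota : XU ℂ → XK3 ℂ)) := by
    apply Continuous.prodMap
    · exact Continuous.piMap fun v => iota_cont
    · exact iota_cont
  have h4 := h2.comp h1 h3
  refine Dense.mono ?_ h4
  rintro _ ⟨z, rfl⟩
  refine ⟨iota z, ?_⟩
  simp only [Function.comp, Prod.map, map_iota]
  rfl

end top

end Pool.Agent.WAP.H32
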